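import Pool.Agent.R872.SEC.Stm

/-!
# SEC-ARC (MP_d56274_gt): an arcsine integral
-/

set_option autoImplicit false

open MeasureTheory Set
open scoped ENNReal

namespace Pool.R872.SEC

namespace ARCx

/-- the antiderivative -/
noncomputable def F (c t : ℝ) : ℝ := 1 / 2 * Real.arcsin ((2 * t ^ 2 - 1 - c ^ 2) / (1 - c ^ 2))

theorem contF (c : ℝ) : Continuous (F c) := by
  unfold F
  exact continuous_const.mul (Real.continuous_arcsin.comp
    ((((continuous_const.mul (continuous_pow 2)).sub continuous_const).sub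
      continuous_const).div_const _))

theorem derivF {c t : ℝ} (hc : 0 ≤ c) (hct : c < t) (ht : t < 1) :
    HasDerivAt (F c) (t / (Real.sqrt (1 - t ^ 2) * Real.sqrt (t ^ 2 - c ^ 2))) t := by
  have hc1 : 0 < 1 - c ^ 2 := by nlinarith
  have h1 : 0 < 1 - t ^ 2 := by nlinarith
  have h2 : 0 < t ^ 2 - c ^ 2 := by nlinarith
  obtain ⟨u, hu⟩ : ∃ u, u = (2 * t ^ 2 - 1 - c ^ 2) / (1 - c ^ 2) := ⟨_, rfl⟩
  have hu1 : 1 - u ^ 2 = 4 * ((1 - t ^ 2) * (t ^ 2 - c ^ 2)) / (1 - c ^ 2) ^ 2 := by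
    rw [hu]
    field_simp
    ring
  have hpos : 0 < 1 - u ^ 2 := by
    rw [hu1]
    positivity
  have hne1 : u ≠ -1 := by
    intro h
    rw [h] at hpos
    norm_num at hpos
  have hne2 : u ≠ 1 := by
    intro h
    rw [h] at hpos
    norm_num at hpos
  have hsq : Real.sqrt (1 - u ^ 2) =
      2 * (Real.sqrt (1 - t ^ 2) * Real.sqrt (t ^ 2 - c ^ 2)) / (1 - c ^ 2) := by
    rw [Real.sqrt_eq_iff_mul_self_eq_of_pos (by positivity), hu1]
    have e1 := Real.mul_self_sqrt h1.le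
    have e2 := Real.mul_self_sqrt h2.le
    have e3 : 2 * (Real.sqrt (1 - t ^ 2) * Real.sqrt (t ^ 2 - c ^ 2)) / (1 - c ^ 2) *
        (2 * (Real.sqrt (1 - t ^ 2) * Real.sqrt (t ^ 2 - c ^ 2)) / (1 - c ^ 2)) =
        4 * ((Real.sqrt (1 - t ^ 2) * Real.sqrt (1 - t ^ 2)) *
          (Real.sqrt (t ^ 2 - c ^ 2) * Real.sqrt (t ^ 2 - c ^ 2))) / (1 - c ^ 2) ^ 2 := by
      rw [div_mul_div_comm, ← pow_two (1 - c ^ 2)]
      congr 1
      ring
    rw [e3, e1, e2]
  have hin : HasDerivAt (fun t : ℝ => (2 * t ^ 2 - 1 - c ^ 2) / (1 - c ^ 2))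
      (4 * t / (1 - c ^ 2)) t := by
    have h3 : HasDerivAt (fun t : ℝ => t ^ 2) (2 * t) t := by
      simpa using hasDerivAt_pow 2 t
    have h4 := (((h3.const_mul 2).sub_const 1).sub_const (c ^ 2)).div_const (1 - c ^ 2)
    refine h4.congr_deriv ?_
    ring
  have harc : HasDerivAt Real.arcsin (1 / Real.sqrt (1 - u ^ 2)) u :=
    Real.hasDerivAt_arcsin hne1 hne2
  rw [hu] at harc
  have hcomp := (HasDerivAt.comp t harc hin).const_mul (1 / 2)
  refine hcomp.congr_deriv ?_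
  rw [← hu, hsq]
  have e1 : 0 < Real.sqrt (1 - t ^ 2) := Real.sqrt_pos.2 h1
  have e2 : 0 < Real.sqrt (t ^ 2 - c ^ 2) := Real.sqrt_pos.2 h2
  field_simp
  ring

end ARCx

open ARCx in
theorem ARC : S_ARC := by
  intro c hc hc1
  have hder : ∀ x ∈ Ioo c 1, HasDerivAt (F c)
      (x / (Real.sqrt (1 - x ^ 2) * Real.sqrt (x ^ 2 - c ^ 2))) x :=
    fun x hx => derivF hc hx.1 hx.2
  have hnn : ∀ x ∈ Ioo c 1, 0 ≤ x / (Real.sqrt (1 - x ^ 2) * Real.sqrt (x ^ 2 - c ^ 2)) :=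
    fun x hx => div_nonneg (hc.trans hx.1.le) (mul_nonneg (Real.sqrt_nonneg _) (Real.sqrt_nonneg _))
  have hint : IntegrableOn (fun x : ℝ => x / (Real.sqrt (1 - x ^ 2) * Real.sqrt (x ^ 2 - c ^ 2)))
      (Ioc c 1) :=
    intervalIntegral.integrableOn_deriv_of_nonneg (contF c).continuousOn hder hnn
  have hval := intervalIntegral.integral_eq_sub_of_hasDerivAt_of_le hc1.le (contF c).continuousOn
    hder ((intervalIntegrable_iff_integrableOn_Ioc_of_le hc1.le).2 hint)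
  have hne : 1 - c ^ 2 ≠ 0 := by
    have : 0 < 1 - c ^ 2 := by nlinarith
    exact this.ne'
  have hF1 : F c 1 = Real.pi / 4 := by
    unfold F
    have e : (2 * (1 : ℝ) ^ 2 - 1 - c ^ 2) / (1 - c ^ 2) = 1 := by
      rw [div_eq_one_iff_eq hne]
      ring
    rw [e, Real.arcsin_one]
    ring
  have hFc : F c c = -(Real.pi / 4) := by
    unfold F
    have e : (2 * c ^ 2 - 1 - c ^ 2) / (1 - c ^ 2) = -1 := by
      rw [div_eq_iff hne]
      ring
    rw [e, Real.arcsin_neg_one]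
    ring
  rw [hF1, hFc, intervalIntegral.integral_of_le hc1.le, integral_Ioc_eq_integral_Ioo] at hval
  have e1 : Real.pi / 2 = ∫ t in Ioo c 1, t / (Real.sqrt (1 - t ^ 2) * Real.sqrt (t ^ 2 - c ^ 2)) := by
    rw [hval]
    ring
  rw [e1, ofReal_integral_eq_lintegral_ofReal (hint.mono_set Ioo_subset_Ioc_self)]
  rw [Filter.EventuallyLE, ae_restrict_iff' measurableSet_Ioo]
  exact Filter.Eventually.of_forall hnn

end Pool.R872.SEC
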