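import Pool.Agent.R872.SEC.Stm

/-!
# SEC-AREA1 (MP_d56274_gt): the area of a graph region
-/

set_option autoImplicit false

open MeasureTheory Set
open scoped ENNReal

namespace Pool.R872.SEC

namespace AREA1x

theorem meas (θ₀ : ℝ) {f : ℝ → ℝ} (hf : Continuous f) : MeasurableSet (graphRegion θ₀ f) := by
  have h1 : MeasurableSet {x : ℝ × ℝ | 0 < x.1} := measurableSet_lt measurable_const measurable_fst
  have h2 : MeasurableSet {x : ℝ × ℝ | 0 < x.2} := measurableSet_lt measurable_const measurable_snd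
  have h3 : MeasurableSet {x : ℝ × ℝ | x.2 < θ₀} := measurableSet_lt measurable_snd measurable_const
  have h4 : MeasurableSet {x : ℝ × ℝ | x.1 < f x.2} :=
    measurableSet_lt measurable_fst (hf.measurable.comp measurable_snd)
  exact (h1.inter (h2.inter h3)).inter h4

theorem inner {p : ℝ} (hp : 0 < p) {y : ℝ} (hy : 0 < y) :
    ∫⁻ r in Ioo 0 y, ENNReal.ofReal (r ^ p * r) = ENNReal.ofReal (y ^ (p + 2) / (p + 2)) := by
  have h1 : IntervalIntegrable (fun r : ℝ => r ^ (p + 1)) volume 0 y :=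
    intervalIntegral.intervalIntegrable_rpow' (by linarith)
  have h2 : IntegrableOn (fun r : ℝ => r ^ (p + 1)) (Ioo 0 y) :=
    ((intervalIntegrable_iff_integrableOn_Ioc_of_le hy.le).1 h1).mono_set Ioo_subset_Ioc_self
  have h3 : ∫ r in (0 : ℝ)..y, r ^ (p + 1) = y ^ (p + 2) / (p + 2) := by
    rw [integral_rpow (Or.inl (by linarith))]
    have e : p + 1 + 1 = p + 2 := by ring
    rw [e, Real.zero_rpow (by linarith), sub_zero]
  rw [intervalIntegral.integral_of_le hy.le, integral_Ioc_eq_integral_Ioo] at h3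
  rw [← h3, ofReal_integral_eq_lintegral_ofReal h2]
  · refine setLIntegral_congr_fun measurableSet_Ioo fun r hr => ?_
    rw [Real.rpow_add hr.1, Real.rpow_one]
  · rw [Filter.EventuallyLE, ae_restrict_iff' measurableSet_Ioo]
    exact Filter.Eventually.of_forall fun r hr => Real.rpow_nonneg hr.1.le _

end AREA1x

open AREA1x in
theorem AREA1 : S_AREA1 := by
  intro θ₀ p hθ hp f hf hpos
  have hm := meas θ₀ hf
  refine ⟨hm, ?_⟩
  have hg : Measurable (fun x : ℝ × ℝ => ENNReal.ofReal (x.1 ^ p * x.1)) := by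
    fun_prop
  unfold area
  rw [← lintegral_indicator hm, Measure.volume_eq_prod,
    lintegral_prod_symm' _ (hg.indicator hm)]
  have h1 : ∀ θ : ℝ, ∫⁻ r : ℝ, (graphRegion θ₀ f).indicator
      (fun x : ℝ × ℝ => ENNReal.ofReal (x.1 ^ p * x.1)) (r, θ) =
      (Ioo 0 θ₀).indicator (fun θ => ENNReal.ofReal (f θ ^ (p + 2) / (p + 2))) θ := by
    intro θ
    by_cases hθ1 : θ ∈ Ioo 0 θ₀
    · rw [indicator_of_mem hθ1, ← inner hp (hpos θ), ← lintegral_indicator measurableSet_Ioo]
      refine lintegral_congr fun r => ?_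
      by_cases hr : r ∈ Ioo 0 (f θ)
      · have h2 : (r, θ) ∈ graphRegion θ₀ f := ⟨⟨hr.1, hθ1.1, hθ1.2⟩, hr.2⟩
        rw [indicator_of_mem h2, indicator_of_mem hr]
      · have h2 : (r, θ) ∉ graphRegion θ₀ f := fun h => hr ⟨h.1.1, h.2⟩
        rw [indicator_of_notMem h2, indicator_of_notMem hr]
    · rw [indicator_of_notMem hθ1]
      have h2 : ∀ r : ℝ, (graphRegion θ₀ f).indicator
          (fun x : ℝ × ℝ => ENNReal.ofReal (x.1 ^ p * x.1)) (r, θ) = 0 := by
        intro r
        apply indicator_of_notMem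
        intro h
        exact hθ1 ⟨h.1.2.1, h.1.2.2⟩
      simp [h2]
  simp_rw [h1]
  rw [lintegral_indicator measurableSet_Ioo]
  have hc : Continuous (fun θ => f θ ^ (p + 2) / (p + 2)) :=
    (hf.rpow_const (fun θ => Or.inl (hpos θ).ne')).div_const _
  have h3 : IntegrableOn (fun θ => f θ ^ (p + 2) / (p + 2)) (Ioo 0 θ₀) :=
    (hc.integrableOn_Icc (a := 0) (b := θ₀)).mono_set Ioo_subset_Icc_self
  rw [intervalIntegral.integral_of_le hθ.le, integral_Ioc_eq_integral_Ioo,
    ofReal_integral_eq_lintegral_ofReal h3]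
  rw [Filter.EventuallyLE, ae_restrict_iff' measurableSet_Ioo]
  refine Filter.Eventually.of_forall fun θ _ => ?_
  have := Real.rpow_nonneg (hpos θ).le (p + 2)
  positivity

end Pool.R872.SEC
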