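import Pool.Agent.R872.SEC.Stm

/-!
# SEC-KA1 (MP_d56274_gt): the pairing inequality
-/

set_option autoImplicit false

open MeasureTheory Set
open scoped ENNReal

namespace Pool.R872.SEC

namespace KA1x

theorem rep {n μ t E r : ℝ} (hn : 1 < n) (hμ : 0 < μ) (ht : 0 < t) (hr : 0 < r)
    (hE : (t - μ * r) * r ^ n = E) :
    μ ^ n * E * ((n + 1) ^ (n + 1) / n ^ n) =
      t ^ (n + 1) * ((n + 1 - n * ((n + 1) * μ * r / (n * t))) *
        ((n + 1) * μ * r / (n * t)) ^ n) := by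
  have hn0 : 0 < n := by linarith
  have hn1 : 0 < n + 1 := by linarith
  rw [Real.div_rpow (by positivity) (by positivity), Real.mul_rpow (by positivity) hr.le,
    Real.mul_rpow hn1.le hμ.le, Real.mul_rpow hn0.le ht.le, Real.rpow_add hn1 n 1,
    Real.rpow_add ht n 1, Real.rpow_one, Real.rpow_one, ← hE]
  have e1 : 0 < t ^ n := Real.rpow_pos_of_pos ht n
  have e2 : 0 < n ^ n := Real.rpow_pos_of_pos hn0 n
  field_simp

end KA1x

theorem KA1 : S_KA1 := by
  intro n μ t E r₁ r₂ hn hμ ht hE hr₁ h1 h2 h3 hE1 hE2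
  have hn0 : 0 < n := by linarith
  have hn1 : 0 < n + 1 := by linarith
  have hr₂ : 0 < r₂ := lt_trans (by positivity) h2
  obtain ⟨a, ha⟩ : ∃ a, a = (n + 1) * μ * r₁ / (n * t) := ⟨_, rfl⟩
  obtain ⟨b, hb⟩ : ∃ b, b = (n + 1) * μ * r₂ / (n * t) := ⟨_, rfl⟩
  have k1 := KA1x.rep hn hμ ht hr₁ hE1
  have k2 := KA1x.rep hn hμ ht hr₂ hE2
  rw [← ha] at k1
  rw [← hb] at k2
  have ha0 : 0 < a := by rw [ha]; positivity
  have hb0 : 0 < b := by rw [hb]; positivity
  have ea : (n + 1) * μ * r₁ = a * (n * t) := by rw [ha]; field_simp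
  have eb : (n + 1) * μ * r₂ = b * (n * t) := by rw [hb]; field_simp
  have hnt : 0 < n * t := by positivity
  have ha1 : a < 1 := by
    rw [lt_div_iff₀ (by positivity)] at h1
    have h4 : a * (n * t) < 1 * (n * t) := by
      rw [← ea]
      linarith
    exact lt_of_mul_lt_mul_right h4 hnt.le
  have hb1 : 1 < b := by
    rw [div_lt_iff₀ (by positivity)] at h2
    have h4 : 1 * (n * t) < b * (n * t) := by
      rw [← eb]
      linarith
    exact lt_of_mul_lt_mul_right h4 hnt.le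
  have hb2 : 0 < n + 1 - n * b := by
    rw [lt_div_iff₀ hμ] at h3
    have h4 : (n * b) * t < (n + 1) * t := by
      have h5 : (n + 1) * (r₂ * μ) < (n + 1) * t := mul_lt_mul_of_pos_left h3 hn1
      have h6 : (n * b) * t = (n + 1) * (r₂ * μ) := by linarith [eb]
      rw [h6]
      exact h5
    have := lt_of_mul_lt_mul_right h4 ht.le
    linarith
  have ha2 : 0 < n + 1 - n * a := by nlinarith
  obtain ⟨G, hG⟩ : ∃ G, G = (n + 1 - n * a) * a ^ n := ⟨_, rfl⟩
  have hG0 : 0 < G := by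
    rw [hG]
    exact mul_pos ha2 (Real.rpow_pos_of_pos ha0 n)
  have hGb : G = (n + 1 - n * b) * b ^ n := by
    have h5 : t ^ (n + 1) * G = t ^ (n + 1) * ((n + 1 - n * b) * b ^ n) := by
      rw [hG, ← k1, k2]
    exact mul_left_cancel₀ (Real.rpow_pos_of_pos ht _).ne' h5
  have hcc : cc n μ E = t * G ^ (1 / (n + 1)) := by
    unfold cc
    rw [k1, ← hG, Real.mul_rpow (Real.rpow_nonneg ht.le _) hG0.le, ← Real.rpow_mul ht.le,
      mul_one_div_cancel hn1.ne', Real.rpow_one]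
  have hc0 : 0 ≤ cc n μ E := by
    rw [hcc]
    exact mul_nonneg ht.le (Real.rpow_nonneg hG0.le _)
  have hGG : G ^ (1 / (n + 1)) * G ^ (1 / (n + 1)) ≤ 1 - n * ((b - 1) * (1 - a)) := by
    rw [← Real.mul_rpow hG0.le hG0.le]
    have e1 : G * G = ((n + 1 - n * a) * (n + 1 - n * b)) * (a * b) ^ n := by
      nth_rewrite 1 [hG]
      rw [hGb, Real.mul_rpow ha0.le hb0.le]
      ring
    have hab : 0 < a * b := mul_pos ha0 hb0
    rw [e1, Real.mul_rpow (mul_pos ha2 hb2).le (Real.rpow_nonneg hab.le _), ← Real.rpow_mul hab.le]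
    have e2 : n * (1 / (n + 1)) = n / (n + 1) := by ring
    rw [e2]
    have h6 := Real.geom_mean_le_arith_mean2_weighted (w₁ := 1 / (n + 1)) (w₂ := n / (n + 1))
      (p₁ := (n + 1 - n * a) * (n + 1 - n * b)) (p₂ := a * b) (by positivity) (by positivity)
      (mul_pos ha2 hb2).le hab.le (by field_simp; ring)
    refine le_trans h6 (le_of_eq ?_)
    field_simp
    ring
  have hs : 0 < (b - 1) * (1 - a) := mul_pos (by linarith) (by linarith)
  have hcsq : cc n μ E ^ 2 ≤ t ^ 2 * (1 - n * ((b - 1) * (1 - a))) := by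
    have e3 : cc n μ E ^ 2 = t ^ 2 * (G ^ (1 / (n + 1)) * G ^ (1 / (n + 1))) := by
      rw [hcc]
      ring
    rw [e3]
    exact mul_le_mul_of_nonneg_left hGG (by positivity)
  have hgap : t ^ 2 * (n * ((b - 1) * (1 - a))) ≤ t ^ 2 - cc n μ E ^ 2 := by linarith
  have hgap0 : 0 < t ^ 2 * (n * ((b - 1) * (1 - a))) := by positivity
  refine ⟨?_, ?_⟩
  · apply lt_of_pow_lt_pow_left₀ 2 ht.le
    linarith
  · obtain ⟨w, hw⟩ : ∃ w, w = Real.sqrt ((b - 1) * (1 - a)) := ⟨_, rfl⟩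
    have hw0 : 0 < w := by rw [hw]; exact Real.sqrt_pos.2 hs
    have hw2 : w ^ 2 = (b - 1) * (1 - a) := by rw [hw]; exact Real.sq_sqrt hs.le
    have hQ : n * t * w ≤ Real.sqrt n * Real.sqrt (t ^ 2 - cc n μ E ^ 2) := by
      rw [← Real.sqrt_mul hn0.le]
      apply Real.le_sqrt_of_sq_le
      have e4 : (n * t * w) ^ 2 = n * (t ^ 2 * (n * w ^ 2)) := by ring
      rw [e4, hw2]
      exact mul_le_mul_of_nonneg_left hgap hn0.le
    have hntw : 0 < n * t * w := by positivity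
    have h7 : 2 / (Real.sqrt n * Real.sqrt (t ^ 2 - cc n μ E ^ 2)) ≤ 2 / (n * t * w) :=
      div_le_div_of_nonneg_left (by norm_num) hntw hQ
    refine le_trans h7 ?_
    have e5 : n * t - (n + 1) * μ * r₁ = n * t * (1 - a) := by rw [ea]; ring
    have e6 : (n + 1) * μ * r₂ - n * t = n * t * (b - 1) := by rw [eb]; ring
    rw [e5, e6]
    have hs1 : 0 < 1 - a := by linarith
    have hs2 : 0 < b - 1 := by linarith
    have e7 : 1 / (n * t * (1 - a)) + 1 / (n * t * (b - 1)) =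
        ((b - 1) + (1 - a)) / (n * t * w ^ 2) := by
      rw [hw2]
      field_simp
    rw [e7, div_le_div_iff₀ hntw (by positivity)]
    have h8 : 2 * w ≤ (b - 1) + (1 - a) := by
      apply (sq_le_sq₀ (by linarith) (by linarith)).1
      have h9 := sq_nonneg ((b - 1) - (1 - a))
      have h10 : (2 * w) ^ 2 = 4 * ((b - 1) * (1 - a)) := by rw [mul_pow, hw2]; ring
      have h11 : ((b - 1) + (1 - a)) ^ 2 = ((b - 1) - (1 - a)) ^ 2 + 4 * ((b - 1) * (1 - a)) := by
        ring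
      rw [h10, h11]
      exact le_add_of_nonneg_left h9
    have h9 : 2 * (n * t * w ^ 2) = (2 * w) * (n * t * w) := by ring
    rw [h9]
    exact mul_le_mul_of_nonneg_right h8 hntw.le

end Pool.R872.SEC
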