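import Pool.Agent.R872.SEC.Stm

/-!
# SEC-UPG (MP_d56274_gt): upper bound for the perimeter of a graph region
-/

set_option autoImplicit false

open MeasureTheory Set
open scoped ENNReal

namespace Pool.R872.SEC

namespace UPGx

/-- smoothness of `x.1 ^ q * a x` -/
theorem smooth {θ₀ q : ℝ} {a : ℝ × ℝ → ℝ} (ha : ContDiff ℝ 1 a) (hs : tsupport a ⊆ sector θ₀) :
    ContDiff ℝ 1 (fun x : ℝ × ℝ => x.1 ^ q * a x) := by
  rw [contDiff_iff_contDiffAt]
  intro x
  by_cases hx : 0 < x.1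
  · exact (contDiffAt_fst.rpow_const_of_ne hx.ne').mul ha.contDiffAt
  · have h1 : x ∉ tsupport a := fun h => hx (hs h).1
    have h2 : (fun x : ℝ × ℝ => x.1 ^ q * a x) =ᶠ[nhds x] fun _ => 0 := by
      have h3 := notMem_tsupport_iff_eventuallyEq.1 h1
      filter_upwards [h3] with y hy
      rw [hy]
      simp
    exact contDiffAt_const.congr_of_eventuallyEq h2

/-- partial derivatives -/
noncomputable def D1 (A : ℝ × ℝ → ℝ) (x : ℝ × ℝ) : ℝ := fderiv ℝ A x (1, 0)
/-- partial derivatives -/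
noncomputable def D2 (A : ℝ × ℝ → ℝ) (x : ℝ × ℝ) : ℝ := fderiv ℝ A x (0, 1)

theorem cD1 {A : ℝ × ℝ → ℝ} (hA : ContDiff ℝ 1 A) : Continuous (D1 A) :=
  (hA.continuous_fderiv (by simp)).clm_apply continuous_const

theorem cD2 {A : ℝ × ℝ → ℝ} (hA : ContDiff ℝ 1 A) : Continuous (D2 A) :=
  (hA.continuous_fderiv (by simp)).clm_apply continuous_const

theorem fderiv_pair (A : ℝ × ℝ → ℝ) (x : ℝ × ℝ) (u v : ℝ) :
    fderiv ℝ A x (u, v) = u * D1 A x + v * D2 A x := by
  have e : (u, v) = u • ((1 : ℝ), (0 : ℝ)) + v • ((0 : ℝ), (1 : ℝ)) := by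
    ext <;> simp
  rw [e, map_add, map_smul, map_smul, smul_eq_mul, smul_eq_mul]
  rfl

theorem deriv_curve {A : ℝ × ℝ → ℝ} (hA : ContDiff ℝ 1 A) {γ : ℝ → ℝ × ℝ} {u v t : ℝ}
    (hγ : HasDerivAt γ (u, v) t) :
    HasDerivAt (fun s => A (γ s)) (u * D1 A (γ t) + v * D2 A (γ t)) t := by
  have h1 : HasFDerivAt A (fderiv ℝ A (γ t)) (γ t) :=
    ((hA.differentiable (by simp)).differentiableAt).hasFDerivAt
  have h2 := h1.comp_hasDerivAt t hγ
  rwa [fderiv_pair] at h2

theorem core {A B : ℝ × ℝ → ℝ} (hA : ContDiff ℝ 1 A) (hB : ContDiff ℝ 1 B) {θ₀ : ℝ}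
    {f : ℝ → ℝ} (hf : ContDiff ℝ 1 f) (hA0 : ∀ θ, A (0, θ) = 0) (hB0 : ∀ r, B (r, 0) = 0)
    (hB1 : ∀ r, B (r, θ₀) = 0) :
    ∫ θ in (0 : ℝ)..θ₀, ∫ r in (0 : ℝ)..f θ, (D1 A (r, θ) + D2 B (r, θ)) =
      ∫ θ in (0 : ℝ)..θ₀, (A (f θ, θ) - deriv f θ * B (f θ, θ)) := by
  have hfc : Continuous f := hf.continuous
  have hf' : Continuous (deriv f) := hf.continuous_deriv (by simp)
  have hfd : ∀ θ, HasDerivAt f (deriv f θ) θ := fun θ =>
    ((hf.differentiable (by simp)).differentiableAt).hasDerivAt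
  have hAc := hA.continuous
  have hBc := hB.continuous
  have hA1 := cD1 hA
  have hB1c := cD1 hB
  have hB2c := cD2 hB
  set P : ℝ → ℝ → ℝ := fun θ s => f θ * D1 A (f θ * s, θ) -
    (deriv f θ * B (f θ * s, θ) + deriv f θ * s * (f θ * D1 B (f θ * s, θ))) with hP
  set Q : ℝ → ℝ → ℝ := fun θ s => deriv f θ * B (f θ * s, θ) +
    f θ * (deriv f θ * s * D1 B (f θ * s, θ) + D2 B (f θ * s, θ)) with hQ
  have hPc : Continuous (Function.uncurry P) := by
    rw [hP]
    unfold Function.uncurry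
    fun_prop
  have hQc : Continuous (Function.uncurry Q) := by
    rw [hQ]
    unfold Function.uncurry
    fun_prop
  have hPs : ∀ θ, Continuous (P θ) := fun θ => hPc.comp (Continuous.prodMk_right θ)
  have hQs : ∀ θ, Continuous (Q θ) := fun θ => hQc.comp (Continuous.prodMk_right θ)
  have hQt : ∀ s, Continuous (fun θ => Q θ s) := fun s => hQc.comp (Continuous.prodMk_left s)
  have step1 : ∀ θ, ∫ r in (0 : ℝ)..f θ, (D1 A (r, θ) + D2 B (r, θ)) =
      (∫ s in (0 : ℝ)..1, P θ s) + ∫ s in (0 : ℝ)..1, Q θ s := by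
    intro θ
    have h1 := intervalIntegral.smul_integral_comp_mul_left
      (fun r => D1 A (r, θ) + D2 B (r, θ)) (f θ) (a := 0) (b := 1)
    rw [mul_zero, mul_one] at h1
    rw [← h1, ← intervalIntegral.integral_add ((hPs θ).intervalIntegrable _ _)
      ((hQs θ).intervalIntegrable _ _), smul_eq_mul, ← intervalIntegral.integral_const_mul]
    refine intervalIntegral.integral_congr fun s _ => ?_
    simp only [hP, hQ]
    ring
  have step2 : ∀ θ, ∫ s in (0 : ℝ)..1, P θ s = A (f θ, θ) - deriv f θ * B (f θ, θ) := by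
    intro θ
    have hder : ∀ s ∈ Set.uIcc (0 : ℝ) 1, HasDerivAt
        (fun s => A (f θ * s, θ) - (deriv f θ * s) * B (f θ * s, θ)) (P θ s) s := by
      intro s _
      have hγ : HasDerivAt (fun s : ℝ => (f θ * s, θ)) (f θ, 0) s := by
        have h1 : HasDerivAt (fun s : ℝ => f θ * s) (f θ) s := by
          simpa using (hasDerivAt_id s).const_mul (f θ)
        exact h1.prodMk (hasDerivAt_const s θ)
      have h1 := deriv_curve hA hγ
      have h2 := deriv_curve hB hγ
      have h3 : HasDerivAt (fun s : ℝ => deriv f θ * s) (deriv f θ) s := by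
        simpa using (hasDerivAt_id s).const_mul (deriv f θ)
      refine (h1.sub (h3.mul h2)).congr_deriv ?_
      simp only [hP]
      ring
    rw [intervalIntegral.integral_eq_sub_of_hasDerivAt hder ((hPs θ).intervalIntegrable _ _)]
    simp [hA0]
  have step3 : ∀ s, ∫ θ in (0 : ℝ)..θ₀, Q θ s = 0 := by
    intro s
    have hder : ∀ θ ∈ Set.uIcc (0 : ℝ) θ₀, HasDerivAt
        (fun θ => f θ * B (f θ * s, θ)) (Q θ s) θ := by
      intro θ _
      have hγ : HasDerivAt (fun θ : ℝ => (f θ * s, θ)) (deriv f θ * s, 1) θ :=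
        ((hfd θ).mul_const s).prodMk (hasDerivAt_id θ)
      have h2 := deriv_curve hB hγ
      refine ((hfd θ).mul h2).congr_deriv ?_
      simp only [hQ]
      ring
    rw [intervalIntegral.integral_eq_sub_of_hasDerivAt hder ((hQt s).intervalIntegrable _ _)]
    simp [hB0, hB1]
  have step4 : ∫ θ in (0 : ℝ)..θ₀, ∫ s in (0 : ℝ)..1, Q θ s = 0 := by
    rw [intervalIntegral_intervalIntegral_swap]
    · simp [step3]
    · exact (hQc.continuousOn.integrableOn_compact
        (isCompact_uIcc.prod isCompact_uIcc)).mono_set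
        (Set.prod_mono uIoc_subset_uIcc uIoc_subset_uIcc)
  have hcP : Continuous (fun θ => A (f θ, θ) - deriv f θ * B (f θ, θ)) := by fun_prop
  have hcQ : Continuous (fun θ => ∫ s in (0 : ℝ)..1, Q θ s) :=
    intervalIntegral.continuous_parametric_intervalIntegral_of_continuous' hQc 0 1
  simp_rw [step1, step2]
  rw [intervalIntegral.integral_add (hcP.intervalIntegrable _ _) (hcQ.intervalIntegrable _ _),
    step4, add_zero]

theorem meas (θ₀ : ℝ) {f : ℝ → ℝ} (hf : Continuous f) : MeasurableSet (graphRegion θ₀ f) := by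
  have h1 : MeasurableSet {x : ℝ × ℝ | 0 < x.1} := measurableSet_lt measurable_const measurable_fst
  have h2 : MeasurableSet {x : ℝ × ℝ | 0 < x.2} := measurableSet_lt measurable_const measurable_snd
  have h3 : MeasurableSet {x : ℝ × ℝ | x.2 < θ₀} := measurableSet_lt measurable_snd measurable_const
  have h4 : MeasurableSet {x : ℝ × ℝ | x.1 < f x.2} :=
    measurableSet_lt measurable_fst (hf.measurable.comp measurable_snd)
  exact (h1.inter (h2.inter h3)).inter h4

/-- Fubini on the graph region -/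
theorem fub {θ₀ : ℝ} (hθ : 0 < θ₀) {f : ℝ → ℝ} (hf : Continuous f) (hpos : ∀ θ, 0 < f θ)
    {h : ℝ × ℝ → ℝ} (hh : Integrable h) :
    ∫ x in graphRegion θ₀ f, h x = ∫ θ in (0 : ℝ)..θ₀, ∫ r in (0 : ℝ)..f θ, h (r, θ) := by
  have hm := meas θ₀ hf
  rw [← integral_indicator hm, Measure.volume_eq_prod,
    integral_prod_symm _ (hh.indicator hm)]
  have h1 : ∀ θ : ℝ, ∫ r : ℝ, (graphRegion θ₀ f).indicator h (r, θ) =
      (Ioo 0 θ₀).indicator (fun θ => ∫ r in (0 : ℝ)..f θ, h (r, θ)) θ := by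
    intro θ
    by_cases hθ1 : θ ∈ Ioo 0 θ₀
    · rw [indicator_of_mem hθ1, intervalIntegral.integral_of_le (hpos θ).le,
        integral_Ioc_eq_integral_Ioo, ← integral_indicator measurableSet_Ioo]
      refine integral_congr_ae (Filter.Eventually.of_forall fun r => ?_)
      by_cases hr : r ∈ Ioo 0 (f θ)
      · have h2 : (r, θ) ∈ graphRegion θ₀ f := ⟨⟨hr.1, hθ1.1, hθ1.2⟩, hr.2⟩
        simp only [indicator_of_mem h2, indicator_of_mem hr]
      · have h2 : (r, θ) ∉ graphRegion θ₀ f := fun h => hr ⟨h.1.1, h.2⟩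
        simp only [indicator_of_notMem h2, indicator_of_notMem hr]
    · rw [indicator_of_notMem hθ1]
      have h2 : ∀ r : ℝ, (graphRegion θ₀ f).indicator h (r, θ) = 0 := by
        intro r
        apply indicator_of_notMem
        intro h
        exact hθ1 ⟨h.1.2.1, h.1.2.2⟩
      simp [h2]
  simp_rw [h1]
  rw [integral_indicator measurableSet_Ioo, intervalIntegral.integral_of_le hθ.le,
    integral_Ioc_eq_integral_Ioo]

theorem integrable_D {A : ℝ × ℝ → ℝ} (hA : ContDiff ℝ 1 A) (hc : HasCompactSupport A) :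
    Integrable (D1 A) ∧ Integrable (D2 A) :=
  ⟨(cD1 hA).integrable_of_hasCompactSupport (hc.fderiv_apply (𝕜 := ℝ) (1, 0)),
    (cD2 hA).integrable_of_hasCompactSupport (hc.fderiv_apply (𝕜 := ℝ) (0, 1))⟩

theorem zero_out {θ₀ : ℝ} {a : ℝ × ℝ → ℝ} (hs : tsupport a ⊆ sector θ₀) {x : ℝ × ℝ}
    (hx : x ∉ sector θ₀) : a x = 0 := by
  by_contra h
  exact hx (hs (subset_tsupport a h))

end UPGx

open UPGx in
theorem UPG : S_UPG := by
  intro θ₀ p hθ hp f hf hpos
  refine iSup_le fun a => iSup_le fun b => iSup_le fun hab => ?_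
  apply ENNReal.ofReal_le_ofReal
  set A : ℝ × ℝ → ℝ := fun x => x.1 ^ (p + 1) * a x with hA
  set B : ℝ × ℝ → ℝ := fun x => x.1 ^ p * b x with hB
  have hAs : ContDiff ℝ 1 A := smooth hab.a_diff hab.a_supp
  have hBs : ContDiff ℝ 1 B := smooth hab.b_diff hab.b_supp
  have hAc : HasCompactSupport A := hab.a_cpt.mul_left
  have hBc : HasCompactSupport B := hab.b_cpt.mul_left
  have hflux : flux p a b (graphRegion θ₀ f) =
      ∫ x in graphRegion θ₀ f, (D1 A x + D2 B x) := by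
    unfold flux
    refine integral_congr_ae (Filter.Eventually.of_forall fun x => ?_)
    have h1 : HasDerivAt (fun r : ℝ => (r, x.2)) (1, 0) x.1 :=
      (hasDerivAt_id x.1).prodMk (hasDerivAt_const x.1 x.2)
    have h2 : HasDerivAt (fun θ : ℝ => (x.1, θ)) (0, 1) x.2 :=
      (hasDerivAt_const x.2 x.1).prodMk (hasDerivAt_id x.2)
    have h3 := (deriv_curve hAs h1).deriv
    have h4 := (deriv_curve hBs h2).deriv
    simp only [hA, hB, one_mul, zero_mul, add_zero, zero_add] at h3 h4 ⊢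
    rw [h3, h4]
  have hfub := fub hθ hf.continuous hpos
    ((integrable_D hAs hAc).1.add (integrable_D hBs hBc).2)
  simp only [Pi.add_apply] at hfub
  rw [hflux, hfub]
  have hcore := core hAs hBs hf (θ₀ := θ₀)
    (fun θ => by
      simp only [hA]
      rw [Real.zero_rpow (by linarith), zero_mul])
    (fun r => by
      simp only [hB]
      rw [zero_out hab.b_supp (fun h => lt_irrefl _ h.2.1), mul_zero])
    (fun r => by
      simp only [hB]
      rw [zero_out hab.b_supp (fun h => lt_irrefl _ h.2.2), mul_zero])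
  rw [hcore]
  have hfc := hf.continuous
  have hf' : Continuous (deriv f) := hf.continuous_deriv (by simp)
  have hAcc := hAs.continuous
  have hBcc := hBs.continuous
  have hc1 : Continuous (fun θ => A (f θ, θ) - deriv f θ * B (f θ, θ)) := by fun_prop
  have hc2 : Continuous (fun θ => f θ ^ p * Real.sqrt (f θ ^ 2 + deriv f θ ^ 2)) := by
    have h1 : Continuous (fun θ => f θ ^ p) := hfc.rpow_const (fun θ => Or.inl (hpos θ).ne')
    fun_prop
  refine intervalIntegral.integral_mono_on hθ.le (hc1.intervalIntegrable _ _)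
    (hc2.intervalIntegrable _ _) fun θ _ => ?_
  have hfp : 0 < f θ ^ p := Real.rpow_pos_of_pos (hpos θ) p
  have e1 : A (f θ, θ) - deriv f θ * B (f θ, θ) =
      f θ ^ p * (f θ * a (f θ, θ) - deriv f θ * b (f θ, θ)) := by
    simp only [hA, hB]
    rw [Real.rpow_add (hpos θ), Real.rpow_one]
    ring
  rw [e1]
  refine mul_le_mul_of_nonneg_left ?_ hfp.le
  apply Real.le_sqrt_of_sq_le
  have h5 := hab.norm_le (f θ, θ)
  have h6 : (f θ * a (f θ, θ) - deriv f θ * b (f θ, θ)) ^ 2 ≤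
      (f θ ^ 2 + deriv f θ ^ 2) * (a (f θ, θ) ^ 2 + b (f θ, θ) ^ 2) := by
    have h7 := sq_nonneg (f θ * b (f θ, θ) + deriv f θ * a (f θ, θ))
    have h8 : (f θ ^ 2 + deriv f θ ^ 2) * (a (f θ, θ) ^ 2 + b (f θ, θ) ^ 2) =
        (f θ * a (f θ, θ) - deriv f θ * b (f θ, θ)) ^ 2 +
          (f θ * b (f θ, θ) + deriv f θ * a (f θ, θ)) ^ 2 := by ring
    rw [h8]
    linarith
  have h9 : (f θ ^ 2 + deriv f θ ^ 2) * (a (f θ, θ) ^ 2 + b (f θ, θ) ^ 2) ≤
      (f θ ^ 2 + deriv f θ ^ 2) * 1 := mul_le_mul_of_nonneg_left h5 (by positivity)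
  linarith

end Pool.R872.SEC
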